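import Mathlib
import Pool.Agent.L7h91.VE.Final

/-! Uniqueness of ∨-systems with given matroid and ν-function when all two-dimensional flats have at
most three elements. -/

namespace Pool.Agent.Results.MP_de770b_mp.SmallFlats

open Module Pool.Agent.TH792.Vee

/-- Let `A` be an irreducible ∨-system in dimension at least three such that every two-dimensional
subspace of `V^*` contains at most three elements of `A`. Every bijection of `A` onto an irreducible
∨-system `B` which is an isomorphism of the matroids and preserves the ν-function is, up to signs,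
induced by an element of `GL(V^*)`. -/
theorem result {V : Type*} [AddCommGroup V] [Module ℝ V] [FiniteDimensional ℝ V]
    (hn : 3 ≤ finrank ℝ V) (A : Finset (Dual ℝ V)) (hA : IsVeeSystem A)
    (hirr : IsIrreducible A)
    (h3 : ∀ P : Submodule ℝ (Dual ℝ V), finrank ℝ P = 2 → (inter A P).card ≤ 3)
    (φ : A → Dual ℝ V) (hφ : IsMatching A φ) :
    ∃ g : Dual ℝ V ≃ₗ[ℝ] Dual ℝ V, ∀ a : A, φ a = g a ∨ φ a = - g a :=
  Pool.Agent.L7h91.VE.unique_of_small hn A hA hirr h3 φ hφ

end Pool.Agent.Results.MP_de770b_mp.SmallFlats
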